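import Pool.Agent.H82.EOL.Stmts

/-!
# Row `W2` of the board `eol`: the weights are positive and grow slowly
-/

set_option autoImplicit false
set_option linter.unusedSectionVars false

namespace Pool.Agent.H72.EOL

open Finset Pool.Agent.H82.SVL Pool.Agent.H82.EOL

variable {D : Type} [Fintype D] [DecidableEq D] {srt : D → ℕ}

theorem gw_pos (Y U : Finset D) (h : ∀ a, U.card + Y.card < (fib srt a).card) :
    0 < gw srt Y U := by
  unfold gw
  refine prod_pos fun s hs => prod_pos fun j hj => ?_
  obtain ⟨a, -, rfl⟩ := mem_image.1 hs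
  have h1 := h a
  have h2 : j < (U.filter (fun b => srt b = srt a)).card := mem_range.1 hj
  have h3 : (U.filter (fun b => srt b = srt a)).card ≤ U.card := card_filter_le _ _
  have h4 : (Y.filter (fun b => srt b = srt a)).card ≤ Y.card := card_filter_le _ _
  have h5 : (univ.filter (fun b => srt b = srt a)).card = (fib srt a).card := rfl
  rw [h5]
  have h6 : ((j + (Y.filter (fun b => srt b = srt a)).card : ℕ) : ℝ) < ((fib srt a).card : ℝ) := by
    exact_mod_cast (by omega)
  have h7 : (0 : ℝ) ≤ ((Y.filter (fun b => srt b = srt a)).card : ℝ) := Nat.cast_nonneg _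
  push_cast at h6
  apply div_pos <;> linarith

theorem w2_thm (h1 : S_W1) : S_W2 := by
  intro D _ _ srt Y E V k hV hN
  have hpos : ∀ U : Finset D, U.card ≤ E.card + k → 0 < gw srt Y U := by
    intro U hU
    refine gw_pos Y U fun a => ?_
    have := hN a
    have h2 : Y.card ≤ (2 * k + 1) * Y.card := Nat.le_mul_of_pos_left _ (by omega)
    omega
  refine ⟨hpos E (by omega), ?_⟩
  have hk : (0 : ℝ) < 2 * k + 1 := by positivity
  have key : ∀ V : Finset D, V.card ≤ k →
      gw srt Y (E ∪ V) * (1 - V.card * (1 / (2 * k + 1))) ≤ gw srt Y E := by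
    intro V
    induction V using Finset.induction_on with
    | empty => intro _; simp
    | insert d V' hd ih =>
      intro hc
      rw [card_insert_of_notMem hd] at hc ⊢
      have ih' := ih (by omega)
      have hU : (E ∪ V').card ≤ E.card + V'.card := card_union_le _ _
      have hgU := hpos (E ∪ V') (by omega)
      have hdl : (0 : ℝ) < 1 / (2 * k + 1) := by positivity
      by_cases hm : d ∈ E ∪ V'
      · have e : E ∪ insert d V' = E ∪ V' := by
          rw [union_insert]; exact insert_eq_of_mem hm
        rw [e]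
        refine le_trans ?_ ih'
        apply mul_le_mul_of_nonneg_left _ hgU.le
        push_cast
        linarith
      · have e : E ∪ insert d V' = insert d (E ∪ V') := union_insert _ _ _
        rw [e, h1 D srt Y (E ∪ V') d hm]
        have hfr : (2 * k + 1) * Y.card + 1 ≤ fr srt (E ∪ V') d := by
          have a1 := fib_card_le_fr_add (srt := srt) (E ∪ V') d
          have a2 := hN d
          omega
        have hny : ny srt Y d ≤ Y.card := card_filter_le _ _
        have hfr' : (2 * (k : ℝ) + 1) * Y.card + 1 ≤ (fr srt (E ∪ V') d : ℝ) := by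
          exact_mod_cast hfr
        have hny' : (ny srt Y d : ℝ) ≤ Y.card := by exact_mod_cast hny
        have hny0 : (0 : ℝ) ≤ (ny srt Y d : ℝ) := Nat.cast_nonneg _
        have hY0 : (0 : ℝ) ≤ (Y.card : ℝ) := Nat.cast_nonneg _
        have hk0 : (0 : ℝ) ≤ (k : ℝ) := Nat.cast_nonneg _
        have hv0 : (0 : ℝ) ≤ (V'.card : ℝ) := Nat.cast_nonneg _
        have hden : (0 : ℝ) < (fr srt (E ∪ V') d : ℝ) - ny srt Y d := by
          nlinarith [mul_nonneg hk0 hY0]
        have hfd : (Y.card : ℝ) ≤ (fr srt (E ∪ V') d : ℝ) * (1 / (2 * k + 1)) := by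
          rw [mul_one_div, le_div_iff₀ hk]
          linarith
        have hmain : (fr srt (E ∪ V') d : ℝ) * (1 - (V'.card + 1) * (1 / (2 * k + 1))) ≤
            ((fr srt (E ∪ V') d : ℝ) - ny srt Y d) * (1 - V'.card * (1 / (2 * k + 1))) := by
          have b1 : (ny srt Y d : ℝ) * (1 - V'.card * (1 / (2 * k + 1))) ≤ (Y.card : ℝ) := by
            have c1 : 0 ≤ (ny srt Y d : ℝ) * (V'.card * (1 / (2 * k + 1))) :=
              mul_nonneg hny0 (mul_nonneg hv0 hdl.le)
            linarith
          linarith
        refine le_trans ?_ ih'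
        rw [mul_assoc]
        apply mul_le_mul_of_nonneg_left _ hgU.le
        push_cast
        rw [div_mul_eq_mul_div, div_le_iff₀ hden]
        linarith
  have h2 := key V hV
  have hVk : (V.card : ℝ) ≤ k := by exact_mod_cast hV
  have hhalf : (1 / 2 : ℝ) ≤ 1 - V.card * (1 / (2 * k + 1)) := by
    have : (V.card : ℝ) * (1 / (2 * k + 1)) ≤ 1 / 2 := by
      rw [mul_one_div, div_le_iff₀ hk]
      linarith
    linarith
  have hg := hpos (E ∪ V) (by
    have := card_union_le E V
    omega)
  have h3 : gw srt Y (E ∪ V) * (1 / 2) ≤ gw srt Y E :=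
    le_trans (mul_le_mul_of_nonneg_left hhalf hg.le) h2
  linarith

end Pool.Agent.H72.EOL
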